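import Mathlib

set_option autoImplicit false

namespace Pool.Agent.H.MP_a4afae_al

open Filter Topology Finset

variable {G : Type} [Group G]

theorem mean (a u : G) (hg : Subgroup.closure {a, u} = ⊤)
    (hK : ∀ L : ℕ, ∃ K : Subgroup G, Finite K ∧ ∀ i < L, (u ^ i)⁻¹ * a * u ^ i ∈ K) :
    ∃ μ : Set G → ℝ, (∀ S, 0 ≤ μ S) ∧ μ Set.univ = 1 ∧
      (∀ A B : Set G, Disjoint A B → μ (A ∪ B) = μ A + μ B) ∧
      ∀ (g : G) (S : Set G), μ ((fun x => g * x) ⁻¹' S) = μ S := by
  classical
  choose K k1 k2 using hK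
  have := fun L => Fintype.ofFinite (K L)
  let d : ℕ → Set G → ℕ → ℝ := fun L S i =>
    (∑ x : K L, if u ^ i * x ∈ S then 1 else 0) / Fintype.card (K L)
  have cp : ∀ L, (0 : ℝ) < Fintype.card (K L) := fun L => by exact_mod_cast Fintype.card_pos
  have d1 : ∀ L S i, d L S i ∈ Set.Icc (0 : ℝ) 1 := fun L S i =>
    ⟨by positivity, (div_le_one (cp L)).2 ((sum_le_sum fun x _ => show _ ≤ (1 : ℝ) by
      split_ifs <;> norm_num).trans (by simp))⟩
  let f : Set G → ℕ → ℝ := fun S L => (∑ i ∈ range (L + 1), d (L + 1) S i) / (L + 1)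
  have f1 : ∀ S L, f S L ∈ Set.Icc (0 : ℝ) 1 := fun S L =>
    ⟨div_nonneg (sum_nonneg fun i _ => (d1 _ S i).1) (by positivity), (div_le_one (by positivity)).2
      ((sum_le_sum fun i _ => (d1 _ S i).2).trans (by simp))⟩
  have f2 : ∀ S, ∃ y, Tendsto (f S) (hyperfilter ℕ) (𝓝 y) := fun S => by
    obtain ⟨y, -, h⟩ := isCompact_Icc.ultrafilter_le_nhds' ((hyperfilter ℕ).map (f S))
      (mem_map.2 (Eventually.of_forall (f1 S)))
    exact ⟨y, h⟩
  choose μ hμ using f2
  refine ⟨μ, fun S => ge_of_tendsto' (hμ S) fun L => (f1 S L).1, ?_, fun A B h => ?_,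
    fun g => ?_⟩
  · refine tendsto_nhds_unique (hμ _) (tendsto_const_nhds.congr fun L => ?_)
    simp [f, d, (cp _).ne', Nat.cast_add_one_ne_zero]
  · refine tendsto_nhds_unique (hμ _) (((hμ A).add (hμ B)).congr fun L => ?_)
    simp only [f, d, ← add_div, ← sum_add_distrib]
    congr 1
    refine sum_congr rfl fun i _ => congrArg (· / _) (sum_congr rfl fun x _ => ?_)
    have : u ^ i * x ∈ A → u ^ i * x ∉ B := fun h1 => Set.disjoint_left.1 h h1
    by_cases h1 : u ^ i * x ∈ A <;> by_cases h2 : u ^ i * x ∈ B <;> simp_all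
  induction (hg ▸ Subgroup.mem_top g : g ∈ Subgroup.closure {a, u})
    using Subgroup.closure_induction with
  | one => simp
  | mul g h _ _ ig ih => intro S; rw [← ig S, ← ih ((g * ·) ⁻¹' S)]; congr 1; ext x; simp [mul_assoc]
  | inv g _ ig => intro S; rw [← ig]; congr 1; ext x; simp
  | mem g hg =>
    intro S
    rcases hg with rfl | rfl
    · refine tendsto_nhds_unique (hμ _) ((hμ S).congr fun L => ?_)
      simp only [f, d]
      congr! 3 with i hi
      rw [← Equiv.sum_comp (Equiv.mulLeft (⟨_, k2 _ i (mem_range.1 hi)⟩ : K (L + 1)))]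
      simp [mul_assoc]
    · have : Tendsto (fun L : ℕ => (d (L + 1) S (L + 1) - d (L + 1) S 0) / (L + 1)) atTop
          (𝓝 0) := squeeze_zero_norm (fun L => by
        rw [norm_div, Real.norm_of_nonneg (by positivity : (0 : ℝ) ≤ L + 1)]
        gcongr
        exact abs_sub_le_iff.2 ⟨by linarith [(d1 (L + 1) S (L + 1)).2, (d1 (L + 1) S 0).1],
          by linarith [(d1 (L + 1) S (L + 1)).1, (d1 (L + 1) S 0).2]⟩)
        tendsto_one_div_add_atTop_nhds_zero_nat
      refine tendsto_nhds_unique (hμ _) ?_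
      simpa using ((hμ S).add (this.mono_left Nat.hyperfilter_le_atTop)).congr fun L => by
        have e : ∀ i, d (L + 1) ((fun x => g * x) ⁻¹' S) i = d (L + 1) S (i + 1) := fun i => by
          simp [d, pow_succ', mul_assoc]
        simp only [f, e, ← add_div]
        rw [← sum_range_sub (d (L + 1) S), ← sum_add_distrib]
        simp

variable (F : Type) [Field F]

/-- augmentation ideal -/
noncomputable abbrev M (G : Type) [Group G] : Submodule F (MonoidAlgebra F G) :=
  Submodule.span F (Set.range fun g : G => MonoidAlgebra.of F G g - 1)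

lemma mM (g : G) : MonoidAlgebra.of F G g - 1 ∈ M F G := Submodule.subset_span ⟨g, rfl⟩

theorem fd (s : Set G) (hs : s.Finite) (hg : Subgroup.closure s = ⊤) (n : ℕ) :
    Module.Finite F (MonoidAlgebra F G ⧸ M F G ^ (n + 1)) := by
  let V := Submodule.span F ((fun g : G => MonoidAlgebra.of F G g - 1) '' s)
  have v1 : V ≤ M F G := Submodule.span_mono (Set.image_subset_range _ _)
  have v2 : M F G ≤ V ⊔ M F G ^ 2 := Submodule.span_le.2 (by
    rintro _ ⟨g, rfl⟩
    show MonoidAlgebra.of F G g - 1 ∈ V ⊔ M F G ^ 2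
    have m2 := fun g h : G => Submodule.mem_sup_right (S := V)
      (sq (M F G) ▸ Submodule.mul_mem_mul (mM F g) (mM F h))
    induction (hg ▸ Subgroup.mem_top g : g ∈ Subgroup.closure s)
      using Subgroup.closure_induction with
    | mem g hg => exact Submodule.mem_sup_left (Submodule.subset_span ⟨g, hg, rfl⟩)
    | one => simp [-MonoidAlgebra.of_apply]
    | mul g h _ _ ig ih =>
      convert add_mem (add_mem ig ih) (m2 g h) using 1
      simp only [map_mul]; noncomm_ring
    | inv g _ ig =>
      convert sub_mem (neg_mem ig) (m2 g⁻¹ g) using 1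
      simp only [sub_mul, mul_sub, ← map_mul, inv_mul_cancel, map_one, mul_one, one_mul]; abel)
  have v3 : ∀ k, M F G ^ k ≤ V ^ k ⊔ M F G ^ (k + 1) := fun k => by
    induction k with
    | zero => simp
    | succ k ih =>
      rw [pow_succ]
      refine (mul_le_mul_left ih _).trans ?_
      rw [Submodule.sup_mul, ← pow_succ]
      refine sup_le ((mul_le_mul_right v2 _).trans ?_) le_sup_right
      rw [Submodule.mul_sup, ← pow_succ, add_assoc, pow_add (M F G)]
      exact sup_le_sup_left (mul_le_mul_left (pow_le_pow_left' v1 k) _) _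
  have v4 : ∀ k, ∃ W : Submodule F (MonoidAlgebra F G), W.FG ∧ M F G ^ (k + 1) ⊔ W = ⊤ := by
    intro k
    induction k with
    | zero =>
      refine ⟨1, by rw [Submodule.one_eq_span]; exact Submodule.fg_span_singleton _,
        eq_top_iff.2 fun x _ => ?_⟩
      induction x using MonoidAlgebra.induction_on with
      | of g =>
        rw [← sub_add_cancel (MonoidAlgebra.of F G g) 1, zero_add, pow_one]
        exact Submodule.add_mem_sup (mM F g) (Submodule.one_le.1 le_rfl)
      | add x y hx hy => exact add_mem (hx trivial) (hy trivial)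
      | smul c x hx => exact Submodule.smul_mem _ c (hx trivial)
    | succ k ih =>
      obtain ⟨W, w1, w2⟩ := ih
      refine ⟨V ^ (k + 1) ⊔ W, ((Submodule.fg_span (hs.image _)).pow _).sup w1, eq_top_iff.2 ?_⟩
      rw [← w2, ← sup_assoc]
      exact sup_le_sup_right ((v3 _).trans_eq (sup_comm _ _)) _
  obtain ⟨W, w1, w2⟩ := v4 n
  have := w1.map (M F G ^ (n + 1)).mkQ
  rw [(Submodule.map_mkQ_eq_top _ _).2 w2] at this
  exact ⟨this⟩

variable {F} {V : Type} [AddCommGroup V] [Module F V] (φ : MonoidAlgebra F G →ₐ[F] Module.End F V)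

/-- killed by a power of the augmentation ideal -/
def An (d : ℕ) (v : V) : Prop := ∀ x ∈ M F G ^ d, φ x v = 0

variable {φ}

lemma An.succ {d : ℕ} {v : V} (h : An φ d v) : An φ (d + 1) v := fun x hx => by
  rw [pow_succ'] at hx
  refine Submodule.mul_induction_on hx (fun x _ y hy => ?_) fun x y hx hy => ?_
  · simp [h y hy]
  · simp [hx, hy]

lemma An.mono {d e : ℕ} {v : V} (h : An φ d v) (he : d ≤ e) : An φ e v := by
  induction he with
  | refl => exact h
  | step _ ih => exact ih.succ

lemma An.of {d : ℕ} {v : V} (h : ∀ g, An φ d (φ (.of F G g) v - v)) : An φ (d + 1) v := by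
  intro x hx
  rw [pow_succ] at hx
  refine Submodule.mul_induction_on hx (fun x hx y hy => ?_) fun x y hx hy => by simp [hx, hy]
  induction hy using Submodule.span_induction with
  | mem y hy => obtain ⟨g, rfl⟩ := hy; simpa using h g x hx
  | zero => simp
  | add y z _ _ hy hz => simp_all [mul_add]
  | smul c y _ hy => simp_all

lemma An.act {d : ℕ} {v : V} (h : An φ d v) (g : G) : An φ d (φ (.of F G g) v) := by
  cases d with
  | zero =>
    have : v = 0 := by simpa using h 1 (by rw [pow_zero]; exact Submodule.one_le.1 le_rfl)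
    intro x _; simp [this]
  | succ d =>
    refine An.of fun k x hx => ?_
    have := fun k => h _ (pow_succ (M F G) d ▸ Submodule.mul_mem_mul hx (mM F k))
    have e := congrArg₂ (· - ·) (this (k * g)) (this g)
    simpa [-MonoidAlgebra.of_apply] using e

lemma An.gen {s : Set G} (hg : Subgroup.closure s = ⊤) {d : ℕ} {v : V}
    (h : ∀ g ∈ s, An φ d (φ (.of F G g) v - v)) : An φ (d + 1) v := by
  refine An.of fun g => ?_
  induction (hg ▸ Subgroup.mem_top g : g ∈ Subgroup.closure s)
    using Subgroup.closure_induction with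
  | mem g hg => exact h g hg
  | one => intro x _; simp [-MonoidAlgebra.of_apply]
  | mul g k _ _ ig ik =>
    intro x hx
    have e := congrArg₂ (· + ·) (ik.act g x hx) (ig x hx)
    simpa [-MonoidAlgebra.of_apply] using e
  | inv g _ ig =>
    intro x hx
    have e := congrArg Neg.neg (ig.act g⁻¹ x hx)
    rw [map_sub, ← Module.End.mul_apply, ← map_mul, ← map_mul] at e
    simpa [-MonoidAlgebra.of_apply] using e

end Pool.Agent.H.MP_a4afae_al
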