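import Mathlib
import Pool.Agent.H.MP_a4afae_al.A

set_option autoImplicit false

namespace Pool.Agent.H.MP_a4afae_al

open Finset

/-- the module -/
abbrev V : Type := ℤ × List ℤ → ZMod 2

/-- cut-off -/
def c (j : ℤ) (n : ℕ) : ZMod 2 := if |j| ≤ padicValNat 2 (n + 1) then 0 else 1

/-- weighted shifts -/
def Y (i : ℤ) : Module.End (ZMod 2) V where
  toFun h p := c (p.1 - i) p.2.length * h (i, (p.1 - i) :: p.2)
  map_add' _ _ := funext fun _ => mul_add _ _ _
  map_smul' _ _ := funext fun _ => mul_left_comm _ _ _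

/-- translations -/
def U (i : ℤ) : Module.End (ZMod 2) V := LinearMap.funLeft _ _ fun p => (p.1 + i, p.2)

lemma Y_ap (i : ℤ) (h : V) (j : ℤ) (w : List ℤ) :
    Y i h (j, w) = c (j - i) w.length * h (i, (j - i) :: w) := rfl

lemma U_ap (i : ℤ) (h : V) (j : ℤ) (w : List ℤ) : U i h (j, w) = h (j + i, w) := rfl

lemma Y_sq (i : ℤ) : (1 + Y i) * (1 + Y i) = 1 := by
  ext h ⟨j, w⟩
  simp [Y_ap, c, add_assoc, CharTwo.add_self_eq_zero]

lemma U_pow (i : ℤ) (n : ℕ) : U i ^ n = U (n * i) := by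
  induction n with
  | zero => ext h ⟨j, w⟩; simp [U_ap]
  | succ n ih => ext h ⟨j, w⟩; simp [pow_succ, ih, U_ap, add_mul, add_assoc]

/-- first generator -/
def a : (Module.End (ZMod 2) V)ˣ := ⟨1 + Y 0, 1 + Y 0, Y_sq 0, Y_sq 0⟩

/-- second generator -/
def u : (Module.End (ZMod 2) V)ˣ :=
  ⟨U 1, U (-1), by ext h ⟨j, w⟩; simp [U_ap], by ext h ⟨j, w⟩; simp [U_ap]⟩

lemma conj (i : ℕ) : ((u ^ i)⁻¹ * a * u ^ i).1 = 1 + Y i := by
  rw [← inv_pow]
  show U (-1) ^ i * (1 + Y 0) * U 1 ^ i = _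
  ext h ⟨j, w⟩
  simp [U_pow, U_ap, Y_ap, sub_eq_add_neg]

/-- finitely many shifts -/
def Z (L : ℕ) (i : Fin L) : Module.End (ZMod 2) V := Y (i : ℕ)

lemma nil (L : ℕ) (l : List (Fin L)) (h : V) (j : Fin L) (w : List ℤ) (q : ℕ) (h1 : w.length < q)
    (h2 : q ≤ w.length + l.length) (h3 : L ≤ padicValNat 2 q) :
    (l.map (Z L)).prod h ((j : ℕ), w) = 0 := by
  induction l generalizing j w with
  | nil => simp at h2; omega
  | cons i l ih =>
    rw [List.map_cons, List.prod_cons, Module.End.mul_apply, Z, Y_ap]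
    rcases (Nat.succ_le_of_lt h1).eq_or_lt with rfl | h4
    · rw [c, if_pos (by rw [abs_le]; simp only [Nat.succ_eq_add_one] at h3; omega), zero_mul]
    · rw [ih _ _ (by simpa using h4) (by simp at h2 ⊢; omega), mul_zero]

lemma fin (L : ℕ) : Finite (Algebra.adjoin (ZMod 2) (Set.range (Z L))) := by
  have h1 : (Submonoid.closure (Set.range (Z L)) : Set (Module.End (ZMod 2) V)).Finite := by
    refine (((List.finite_length_le (Fin L) (2 ^ L)).image
      fun l => (l.map (Z L)).prod).insert 0).subset fun x hx => ?_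
    obtain ⟨l, rfl⟩ : ∃ l : List (Fin L), (l.map (Z L)).prod = x := by
      induction hx using Submonoid.closure_induction with
      | mem x hx => obtain ⟨i, rfl⟩ := hx; exact ⟨[i], by simp⟩
      | one => exact ⟨[], rfl⟩
      | mul x y _ _ hx hy =>
        obtain ⟨l, rfl⟩ := hx
        obtain ⟨k, rfl⟩ := hy
        exact ⟨l ++ k, by simp⟩
    rcases le_or_gt l.length (2 ^ L) with h | h
    · exact .inr ⟨l, h, rfl⟩
    obtain _ | ⟨i, l⟩ := l
    · simp at h
    refine .inl (LinearMap.ext fun f => funext fun ⟨j, w⟩ => ?_)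
    have := Nat.div_add_mod' (w.length + 1) (2 ^ L)
    have := Nat.mod_lt (w.length + 1) (Nat.two_pow_pos L)
    rw [List.map_cons, List.prod_cons, Module.End.mul_apply, Z, Y_ap, nil L l f i _
      (((w.length + 1) / 2 ^ L + 1) * 2 ^ L) (by simp [add_mul]; omega)
      (by simp [add_mul] at h ⊢; omega)
      ((padicValNat_dvd_iff_le (by positivity)).1 (Dvd.intro_left _ rfl)), mul_zero]
    rfl
  have := Module.Finite.span_of_finite (ZMod 2) h1
  have := Module.finite_of_finite (ZMod 2) (M := Submodule.span (ZMod 2)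
    (Submonoid.closure (Set.range (Z L)) : Set (Module.End (ZMod 2) V)))
  rwa [← Algebra.adjoin_eq_span] at this

/-- binomial functions -/
noncomputable def B (e : ℤ) (k : ℕ) (j : ℤ) : ZMod 2 := ((Ring.choose (j + e) k : ℤ) : ZMod 2)

/-- threshold -/
def t (m : ℕ) : ℕ := padicValNat 2 (m + 1) + 1

/-- factor -/
noncomputable def fac (m : ℕ) (b : Fin 2) : ℤ → ZMod 2 := B (t m + 1 - (b : ℕ)) (2 * t m + 1)

lemma fac_c (m : ℕ) (b : Fin 2) (j : ℤ) : c j m * fac m b j = fac m b j := by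
  unfold c
  split_ifs with h
  · rw [abs_le] at h
    obtain ⟨n, hn⟩ := Int.eq_ofNat_of_zero_le (a := j + (t m + 1 - (b : ℕ))) (by unfold t; omega)
    rw [zero_mul, fac, B, hn, Ring.choose_natCast, Nat.choose_eq_zero_of_lt
      (by unfold t at *; omega)]
    rfl
  · exact one_mul _

lemma fac_t (m : ℕ) (b b' : Fin 2) :
    fac m b (t m + b' : ℕ) = if b = b' then 1 else 0 := by
  rw [fac, B, show ((t m + b' : ℕ) : ℤ) + (t m + 1 - (b : ℕ)) = (2 * t m + 1 + b' - b : ℕ) by
    omega, Ring.choose_natCast]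
  fin_cases b <;> fin_cases b' <;> simp [Nat.choose_succ_self_right]
  ring_nf
  simp [show (2 : ZMod 2) = 0 from rfl]

/-- product functions -/
noncomputable def pr (ε : ℕ → Fin 2) : ℕ → List ℤ → ZMod 2
  | 0, [] => 1
  | m + 1, j :: w => fac m (ε m) j * pr ε m w
  | _, _ => 0

lemma pr_len (ε : ℕ → Fin 2) (m : ℕ) (w : List ℤ) (h : w.length ≠ m) : pr ε m w = 0 := by
  induction w generalizing m with
  | nil => cases m; exacts [absurd rfl h, rfl]
  | cons j w ih =>
    cases m
    · rfl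
    · rw [pr, ih _ (by simpa using h), mul_zero]

/-- test words -/
def wd (δ : ℕ → Fin 2) : ℕ → List ℤ
  | 0 => []
  | m + 1 => (t m + δ m : ℕ) :: wd δ m

lemma pr_wd (ε δ : ℕ → Fin 2) (m : ℕ) :
    pr ε m (wd δ m) = if ∀ l < m, ε l = δ l then 1 else 0 := by
  induction m with
  | zero => simp [pr, wd]
  | succ m ih => simp only [wd, pr, fac_t, ih, Nat.forall_lt_succ_right]; split_ifs <;> simp_all

lemma wd_len (δ : ℕ → Fin 2) (m : ℕ) : (wd δ m).length = m := by
  induction m <;> simp [wd, *]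

lemma t_sum (m : ℕ) : ∑ l ∈ range m, (2 * t l + 2) ≤ 6 * m := by
  have h1 : ∑ l ∈ range m, padicValNat 2 (l + 1) = padicValNat 2 m.factorial := by
    induction m with
    | zero => simp
    | succ m ih =>
      rw [sum_range_succ, ih, Nat.factorial_succ, padicValNat.mul (by omega) m.factorial_ne_zero,
        add_comm]
  have := sub_one_mul_padicValNat_factorial (p := 2) m
  simp only [t, mul_add, sum_add_distrib, ← mul_sum, h1, sum_const, card_range, smul_eq_mul]
  omega

variable {G : Type} [Group G] {φ : MonoidAlgebra (ZMod 2) G →ₐ[ZMod 2] Module.End (ZMod 2) V}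
  {x y : G} (hg : Subgroup.closure {x, y} = ⊤) (hx : φ (.of _ G x) = 1 + Y 0)
  (hy : φ (.of _ G y) = U 1)
include hx hy

lemma reach (δ : ℕ → Fin 2) (m : ℕ) : ∃ z, ∀ h, φ z h (0, []) = h (0, wd δ m) := by
  induction m with
  | zero => exact ⟨1, fun h => by simp [wd]⟩
  | succ m ih =>
    obtain ⟨z, hz⟩ := ih
    refine ⟨z * .of _ G y ^ (t m + δ m) * (.of _ G x - 1), fun h => ?_⟩
    simp only [map_mul, map_pow, map_sub, map_one, hx, hy, U_pow, Module.End.mul_apply, hz, U_ap,
      add_sub_cancel_left, Y_ap, wd_len, wd, mul_one, zero_add, sub_zero]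
    rw [c, if_neg (by rw [abs_le, t]; omega), one_mul]

include hg

lemma step (q : List ℤ → ZMod 2) (D : ℕ) (h : ∀ f : ℤ → ZMod 2, An φ D (Y 0 fun p => f p.1 * q p.2))
    (k : ℕ) (e : ℤ) : An φ (k + D + 1) fun p => B e k p.1 * q p.2 := by
  induction k with
  | zero =>
    refine An.gen hg ?_
    rintro _ (rfl | rfl)
    · simpa [-MonoidAlgebra.of_apply, hx] using h (B e 0)
    · intro z _
      rw [hy, sub_eq_zero.2 (funext fun ⟨j, w⟩ => by simp [U_ap, B]), map_zero]
  | succ k ih =>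
    refine An.gen hg ?_
    rintro _ (rfl | rfl)
    · simpa [-MonoidAlgebra.of_apply, hx] using (h (B e (k + 1))).mono (Nat.le_add_left _ _)
    · convert ih using 1
      · ring
      · ext ⟨j, w⟩
        simp only [hy, Pi.sub_apply, U_ap, B, add_right_comm j 1, Ring.choose_succ_succ]
        push_cast
        ring

lemma killed (ε : ℕ → Fin 2) (m k : ℕ) (e : ℤ) :
    An φ (k + ∑ l ∈ range m, (2 * t l + 2) + 1) fun p => B e k p.1 * pr ε m p.2 := by
  induction m generalizing k e with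
  | zero =>
    refine step hg hx hy _ _ (fun f z _ => ?_) k e
    rw [show Y 0 _ = 0 from funext fun ⟨j, w⟩ => by simp [Y_ap, pr], map_zero]
  | succ m ih =>
    refine step hg hx hy _ _ (fun f z hz => ?_) k e
    have := ih (2 * t m + 1) (t m + 1 - (ε m : ℕ)) z (by rw [sum_range_succ] at hz; convert hz using 2; ring)
    rw [show Y 0 _ = f 0 • fun p : ℤ × List ℤ => fac m (ε m) p.1 * pr ε m p.2 from
      funext fun ⟨j, w⟩ => by
        simp only [Y_ap, pr, sub_zero, Pi.smul_apply, smul_eq_mul]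
        by_cases hw : w.length = m
        · rw [hw, mul_left_comm, ← mul_assoc (c j m), fac_c]
        · simp [pr_len ε m w hw], map_smul]
    exact smul_eq_zero_of_right _ this

lemma big (m n : ℕ) (hn : 6 * m ≤ n) : 2 ^ m ≤
    Module.finrank (ZMod 2) (MonoidAlgebra (ZMod 2) G ⧸ M (ZMod 2) G ^ (n + 1)) := by
  have := fd (ZMod 2) _ (Set.toFinite _) hg n
  let ex : (Fin m → Fin 2) → ℕ → Fin 2 := fun ε l => if h : l < m then ε ⟨l, h⟩ else 0
  let Λ : MonoidAlgebra (ZMod 2) G →ₗ[ZMod 2] (Fin m → Fin 2) → ZMod 2 :=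
    { toFun := fun z ε => φ z (fun p => B 0 0 p.1 * pr (ex ε) m p.2) (0, [])
      map_add' := fun _ _ => funext fun _ => by simp
      map_smul' := fun _ _ => funext fun _ => by simp }
  have h1 : M (ZMod 2) G ^ (n + 1) ≤ LinearMap.ker Λ := fun z hz => funext fun ε =>
    congrFun ((killed hg hx hy (ex ε) m 0 0).mono (by linarith [t_sum m]) z hz) _
  have h2 : LinearMap.range Λ = ⊤ := by
    rw [eq_top_iff, ← (Pi.basisFun (ZMod 2) (Fin m → Fin 2)).span_eq, Submodule.span_le]
    rintro _ ⟨δ, rfl⟩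
    obtain ⟨z, hz⟩ := reach hx hy (ex δ) m
    refine ⟨z, funext fun ε => (hz _).trans ?_⟩
    simp only [B, Ring.choose_zero_right, Int.cast_one, one_mul, pr_wd, Pi.basisFun_apply,
      Pi.single_apply]
    congr 1
    refine propext ⟨fun h => funext fun l => by simpa [ex] using h l l.2, fun h => by simp [h]⟩
  have h3 := LinearMap.finrank_range_le (Submodule.liftQ _ Λ h1)
  rwa [Submodule.range_liftQ, h2, finrank_top, Module.finrank_fintype_fun_eq_card,
    Fintype.card_fun, Fintype.card_fin, Fintype.card_fin] at h3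

end Pool.Agent.H.MP_a4afae_al
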